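import Pool.Agent.H34.HF.JLFin

set_option autoImplicit false

/-!
FACTOR(H, c) for graphs `H` whose optimal cores have a common factor.
-/

namespace Pool.Agent.Results.MP_298bb3_lc.CommonCore

open Pool.Agent.H17.HF Pool.Agent.H34.HF

/-- Let `H` be a graph, `j = s + 1` and `k = l + 1`. Let `α` be the greatest number of vertices of
`H` covered by an independent set `X` and an `s`-colourable set `Y` disjoint from it such that the
remaining vertices form a `k`-colourable graph (that is, the greatest size of a `j`-colourable vertex
set whose complement is `k`-colourable). Drop the condition that `X` is independent, and let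
`(X₁, Y₁)` be such a pair which maximises `(|X| + |Y| - α) / |core X|` among the pairs for which `X`
is not independent; suppose that for all pairs attaining the maximum `H[core X]` has an
`H[core X₁]`-factor. Then the unrestricted `H[core X₁]`-factor problem reduces in polynomial time to
`FACTOR(H, c)` for every `c < min (1 - α / (j |H|), 1 - (|H| - α) / (k |H|))`. -/
theorem result (V : Type) [Fintype V] (H : SimpleGraph V) (s l α : ℕ)
    (hα : IsGreatest {n | ∃ X Y : Finset V, Split H s (l + 1) X Y ∧ Indep H X ∧
      X.card + Y.card = n} α)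
    (X₁ Y₁ : Finset V) (h₁ : Split H s (l + 1) X₁ Y₁) (hpos : α < X₁.card + Y₁.card)
    (hopt : ∀ X Y : Finset V, Split H s (l + 1) X Y → ¬ Indep H X →
      ((X.card : ℤ) + Y.card - α) * (coreOf H X₁).card ≤
        ((X₁.card : ℤ) + Y₁.card - α) * (coreOf H X).card)
    (hfac : ∀ X Y : Finset V, Split H s (l + 1) X Y → ¬ Indep H X →
      ((X.card : ℤ) + Y.card - α) * (coreOf H X₁).card =
        ((X₁.card : ℤ) + Y₁.card - α) * (coreOf H X).card →
      HasFactor (H.induce (coreOf H X₁ : Set V)) (H.induce (coreOf H X : Set V)))
    (c : ℝ) (hc₁ : c < 1 - (α : ℝ) / ((s + 1) * Fintype.card V))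
    (hc₂ : c < 1 - ((Fintype.card V : ℝ) - α) / ((l + 1) * Fintype.card V)) :
    ReducesTo (H.induce (coreOf H X₁ : Set V)) H c :=
  reducesTo_of_core H s l α hα X₁ Y₁ h₁ hpos hopt hfac c hc₁ hc₂

end Pool.Agent.Results.MP_298bb3_lc.CommonCore
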