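import Mathlib
import Pool.Agent.H17.HF.Cor
import Pool.Agent.H61.P4.Final

set_option autoImplicit false

/-!
The complexity of `P₄`-factors in graphs of minimum degree at least `c n`: hard for `c < 1/4`, and
decided by perfect matchings, orders of components and small separators for `c > 1/4`.
-/

namespace Pool.Agent.Results.MP_298bb3_lc.P4Dichotomy

open Pool.Agent.H17.HF

/-- The path with four vertices. -/
abbrev P4 : SimpleGraph (Fin 4) := SimpleGraph.pathGraph 4

theorem hasFactor_iff {V : Type} [Fintype V] (G : SimpleGraph V) :
    HasFactor P4 G ↔ H61P4.HasFactor P4 G := by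
  constructor
  · rintro ⟨ι, Φ, hΦ⟩
    have : Finite ι := Finite.of_injective (fun i : ι => Φ (i, (0 : Fin 4)))
      (fun i j hij => (Prod.ext_iff.1 (Φ.injective hij)).1)
    obtain ⟨inst⟩ := nonempty_fintype ι
    exact H61P4.hasFactor_of_index Φ hΦ
  · rintro ⟨m, e, he⟩
    exact ⟨Fin m, e, he⟩

theorem kConn_P4 : KConn P4 1 := by
  refine ⟨by simp, ?_⟩
  intro S hS
  have h1 : S = ∅ := Finset.card_eq_zero.1 (by omega)
  subst h1
  rw [Finset.coe_empty, Set.compl_empty]
  have h2 : P4.Connected := SimpleGraph.pathGraph_connected 3
  exact (SimpleGraph.Iso.connected_iff (SimpleGraph.induceUnivIso P4)).2 h2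

/-- **The threshold for `P₄` is `1/4`.**
(1) For every real `c < 1/4` the unrestricted `P₄`-factor problem has a polynomial-time many-one
reduction to `FACTOR(P₄, c)`.
(2) A finite graph `G` with `n` vertices and minimum degree at least `n/4 + 20` (in particular, for
`c > 1/4`, every graph with `n ≥ 80/(4c-1)` vertices and minimum degree at least `c n`) has a
`P₄`-factor if and only if there are `k ≤ 4` vertex-disjoint copies of `P₄` in `G` such that the
graph that remains after deleting their vertices is `Good`: it has a perfect matching, and each of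
its components has order divisible by `4` and stays connected when one or two of its vertices are
deleted. -/
theorem result :
    (∀ c : ℝ, c < 1 / 4 → Reduces P4 c) ∧
    (∀ (V : Type) [Fintype V] (G : SimpleGraph V),
      (∀ v, Fintype.card V + 80 ≤ 4 * (G.neighborSet v).ncard) →
      (HasFactor P4 G ↔
        ∃ (k : ℕ) (q : Fin k × Fin 4 ↪ V), k ≤ 4 ∧
          (∀ i a b, P4.Adj a b → G.Adj (q (i, a)) (q (i, b))) ∧
          H61P4.Good (G.induce (Set.range q)ᶜ))) := by
  refine ⟨fun c hc => ?_, fun V _ G hdeg => ?_⟩
  · refine reduces_of_kConn le_rfl kConn_P4 ?_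
    rw [Fintype.card_fin]
    push_cast
    exact hc
  · rw [hasFactor_iff]
    exact H61P4.theorem_B G hdeg

end Pool.Agent.Results.MP_298bb3_lc.P4Dichotomy
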