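import Pool.Agent.H17.HF.Tough2

set_option autoImplicit false

/-!
FACTOR(H, c) for every connected graph `H` that is not complete.
-/

namespace Pool.Agent.Results.MP_298bb3_lc.ToughSets

open Pool.Agent.H17.HF

/-- Let `H` be a graph and let the nonempty set `S` of vertices attain the toughness of `H`: `H - S`
has at least two components, and `|S| / c(H - S) ≤ |S'| / c(H - S')` for every set `S'` such that
`H - S'` has at least two components, where `c` is the number of components. Then for every real
`c < |S| / |H|` the unrestricted `H`-factor problem reduces in polynomial time to `FACTOR(H, c)`, the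
`H`-factor problem for graphs with `n` vertices and minimum degree at least `c n`. -/
theorem result (V : Type) [Fintype V] (H : SimpleGraph V) (S : Finset V) (hS : S.Nonempty)
    (h2 : 2 ≤ numComps H S)
    (htough : ∀ S' : Finset V, 2 ≤ numComps H S' →
      S.card * numComps H S' ≤ numComps H S * S'.card)
    (c : ℝ) (hc : c < (S.card : ℝ) / Fintype.card V) : Reduces H c :=
  reduces_of_tough hS h2 htough hc

end Pool.Agent.Results.MP_298bb3_lc.ToughSets
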