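import Pool.Agent.H34.HF.Fin

set_option autoImplicit false

/-!
FACTOR(H, c) for vertex-transitive graphs `H`.
-/

namespace Pool.Agent.Results.MP_298bb3_lc.VertexTransitive

open Pool.Agent.H17.HF Pool.Agent.H34.HF

/-- Let `H` be a vertex-transitive graph of degree at least two and let `X₀` be an independent set
of maximum size `α(H)`. There is a set `U` of at least three vertices, with `H[U]` connected and `|H|`
dividing `α(H) |U|` (so that `U` is the whole vertex set if `α(H)` and `|H|` are coprime), such that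
for every real `c < 1 - α(H) / |H|` the unrestricted `H[U]`-factor problem reduces in polynomial time
to `FACTOR(H, c)`. -/
theorem result (V : Type) [Fintype V] (H : SimpleGraph V)
    (htr : ∀ u v, ∃ γ : H ≃g H, γ u = v)
    (hdeg : ∃ u v w, H.Adj u v ∧ H.Adj u w ∧ v ≠ w) (X₀ : Finset V)
    (hind : ∀ x ∈ X₀, ∀ y ∈ X₀, ¬ H.Adj x y)
    (hmax : ∀ X : Finset V, (∀ x ∈ X, ∀ y ∈ X, ¬ H.Adj x y) → X.card ≤ X₀.card) :
    ∃ U : Finset V, 3 ≤ U.card ∧ (H.induce (U : Set V)).Connected ∧
      Fintype.card V ∣ X₀.card * U.card ∧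
      ∀ c : ℝ, c < 1 - (X₀.card : ℝ) / Fintype.card V → ReducesTo (H.induce (U : Set V)) H c :=
  reducesTo_of_transitive H htr hdeg X₀ hind hmax

end Pool.Agent.Results.MP_298bb3_lc.VertexTransitive
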